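import Pool.Agent.X29.SC.Sum
import Pool.Agent.X29.EV.FreeR

/-! Integer combinations of smooth functions of separated sizes. -/

set_option autoImplicit false

namespace Pool.Agent.X29.SC

open Finset Filter MeasureTheory
open Pool.Agent.TH668.Sm (HyS)
open Pool.Agent.H469R2.NK (e norm_e e_add conj_e)

/-- the uniform probability on a finite set -/
lemma unif (L : ℕ) (hL : 0 < L) : ∃ μ : Measure (Fin L), IsProbabilityMeasure μ ∧
    (∀ f : Fin L → ℂ, ∫ x, f x ∂μ = (∑ n, f n) / L) ∧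
    (∀ P : Fin L → Prop, ∀ _ : DecidablePred P, μ.real {x | P x} = ((univ.filter P).card : ℝ) / L) := by
  have hL0 : (L : ENNReal) ≠ 0 := by
    rw [Ne, Nat.cast_eq_zero]
    omega
  have hL1 : (L : ENNReal) ≠ ⊤ := ENNReal.natCast_ne_top L
  refine ⟨(L : ENNReal)⁻¹ • Measure.count, ⟨?_⟩, fun f => ?_, fun P _ => ?_⟩
  · rw [Measure.smul_apply, Measure.count_univ, smul_eq_mul]
    simp only [ENat.card_eq_coe_fintype_card, Fintype.card_fin]
    exact ENNReal.inv_mul_cancel (by simpa using hL0) (by simp)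
  · rw [integral_smul_measure, integral_count, ENNReal.toReal_inv, ENNReal.toReal_natCast]
    rw [Complex.real_smul]
    push_cast
    rw [div_eq_inv_mul]
  · rw [Measure.real, Measure.smul_apply, smul_eq_mul, ENNReal.toReal_mul, ENNReal.toReal_inv,
      ENNReal.toReal_natCast]
    have h1 : {x | P x} = ((univ.filter P : Finset (Fin L)) : Set (Fin L)) := by
      ext x
      simp
    rw [h1, Measure.count_apply_finset, ENNReal.toReal_natCast, div_eq_inv_mul]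

lemma sgn_abs {S y : ℝ} (hS : S = 1 ∨ S = -1) (h : 0 ≤ S * y) : |y| = S * y := by
  rcases hS with rfl | rfl
  · rw [one_mul] at h ⊢
    exact abs_of_nonneg h
  · rw [neg_one_mul] at h ⊢
    exact abs_of_nonpos (by linarith)

/-- the size of a combination -/
lemma core {r : ℕ} (h : Fin r → ℤ) (i : Fin r) (hi : h i ≠ 0) (hz : ∀ j, j < i → h j = 0) (N Δ : ℝ)
    (hN : 1 ≤ N) (hΔ : 0 ≤ Δ) (hrN : r * N * Δ ≤ 1 / 2) (hhN : ∀ j, |(h j : ℝ)| ≤ N)
    (σ : ℝ) (hσ : σ = 1 ∨ σ = -1) (hσh : σ * (h i : ℝ) = |(h i : ℝ)|)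
    (S : ℝ) (hS : S = 1 ∨ S = -1) (y : Fin r → ℝ) (hSy : 0 ≤ S * y i)
    (hsep : ∀ j, i < j → |y j| ≤ Δ * |y i|) :
    S * y i / 2 ≤ σ * S * ∑ j, (h j : ℝ) * y j ∧ σ * S * ∑ j, (h j : ℝ) * y j ≤ 2 * N * (S * y i) := by
  have h1 : (1 : ℝ) ≤ |(h i : ℝ)| := by
    have := Int.one_le_abs hi
    exact_mod_cast this
  have hyi := sgn_abs hS hSy
  have h2 : |∑ j ∈ univ.erase i, (h j : ℝ) * y j| ≤ (S * y i) / 2 := by
    refine (abs_sum_le_sum_abs _ _).trans ?_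
    have h3 : ∀ j ∈ univ.erase i, |(h j : ℝ) * y j| ≤ N * (Δ * |y i|) := by
      intro j hj
      rw [mem_erase] at hj
      rw [abs_mul]
      rcases lt_or_gt_of_ne hj.1 with h4 | h4
      · rw [hz j h4]
        simp only [Int.cast_zero, abs_zero, zero_mul]
        positivity
      · exact mul_le_mul (hhN j) (hsep j h4) (abs_nonneg _) (by linarith)
    refine (sum_le_card_nsmul _ _ _ h3).trans ?_
    rw [nsmul_eq_mul, ← hyi]
    have h4 : ((univ.erase i).card : ℝ) ≤ r := by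
      have := card_erase_le (s := (univ : Finset (Fin r))) (a := i)
      rw [card_univ, Fintype.card_fin] at this
      exact_mod_cast this
    calc ((univ.erase i).card : ℝ) * (N * (Δ * |y i|)) ≤ r * (N * (Δ * |y i|)) := by gcongr
      _ = (r * N * Δ) * |y i| := by ring
      _ ≤ 1 / 2 * |y i| := by gcongr
      _ = |y i| / 2 := by ring
  have h5 : ∑ j, (h j : ℝ) * y j = (h i : ℝ) * y i + ∑ j ∈ univ.erase i, (h j : ℝ) * y j :=
    (add_sum_erase _ _ (mem_univ i)).symm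
  have h6 : |σ * S * ∑ j ∈ univ.erase i, (h j : ℝ) * y j| ≤ (S * y i) / 2 := by
    rw [abs_mul]
    have : |σ * S| = 1 := by
      rcases hσ with rfl | rfl <;> rcases hS with rfl | rfl <;> norm_num
    rw [this, one_mul]
    exact h2
  have h7 := abs_le.1 h6
  have h8 : σ * S * ((h i : ℝ) * y i) = |(h i : ℝ)| * (S * y i) := by rw [← hσh]; ring
  have h9 : |(h i : ℝ)| * (S * y i) ≤ N * (S * y i) := mul_le_mul_of_nonneg_right (hhN i) hSy
  have h10 : 1 * (S * y i) ≤ |(h i : ℝ)| * (S * y i) := mul_le_mul_of_nonneg_right h1 hSy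
  have h11 : 1 * (S * y i) ≤ N * (S * y i) := mul_le_mul_of_nonneg_right hN hSy
  rw [h5, mul_add, h8]
  constructor <;> linarith [h7.1, h7.2]

/-- combinations satisfy the hypotheses of the bound for exponential sums -/
lemma comb {r k : ℕ} {a b N Δ : ℝ} (φ : Fin r → ℕ → ℝ → ℝ) (s s' : Fin r → ℝ)
    (hs : ∀ j, s j = 1 ∨ s j = -1) (hs' : ∀ j, s' j = 1 ∨ s' j = -1) (hN : 1 ≤ N) (hΔ : 0 ≤ Δ)
    (hrN : r * N * Δ ≤ 1 / 2)
    (hd : ∀ j, ∀ m ≤ k + 1, ∀ t ∈ Set.Icc a b, HasDerivAt (φ j m) (φ j (m + 1) t) t)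
    (hp : ∀ j, ∀ t ∈ Set.Icc a b, 0 ≤ s j * φ j (k + 1) t)
    (hm : ∀ j, ∀ t ∈ Set.Icc a b, 0 ≤ s' j * φ j (k + 2) t)
    (hsep : ∀ i j, i < j → ∀ t ∈ Set.Icc a b, |φ j (k + 1) t| ≤ Δ * |φ i (k + 1) t| ∧
      |φ j (k + 2) t| ≤ Δ * |φ i (k + 2) t|)
    (h : Fin r → ℤ) (hh : h ≠ 0) (hhN : ∀ j, |(h j : ℝ)| ≤ N) :
    ∃ (i : Fin r) (σ : ℝ), (σ = 1 ∨ σ = -1) ∧ ∀ lo hi : ℝ,
      (∀ t ∈ Set.Icc a b, lo ≤ s i * φ i (k + 1) t ∧ s i * φ i (k + 1) t ≤ hi) →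
      HyS k a b (lo / 2) (2 * N * hi) (σ * s i) (σ * s' i) (fun m t => ∑ j, (h j : ℝ) * φ j m t) := by
  obtain ⟨i, hi, hz⟩ : ∃ i, h i ≠ 0 ∧ ∀ j, j < i → h j = 0 := by
    obtain ⟨i0, hi0⟩ : ∃ i, h i ≠ 0 := by
      by_contra hcon
      push Not at hcon
      exact hh (funext hcon)
    obtain ⟨i, hi⟩ := (univ.filter (fun i => h i ≠ 0)).exists_minimal ⟨i0, mem_filter.2 ⟨mem_univ _, hi0⟩⟩
    refine ⟨i, (mem_filter.1 hi.prop).2, fun j hj => ?_⟩
    by_contra hne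
    exact absurd (hi.le_of_le (mem_filter.2 ⟨mem_univ j, hne⟩) hj.le) (not_le.2 hj)
  obtain ⟨σ, hσ, hσh⟩ : ∃ σ : ℝ, (σ = 1 ∨ σ = -1) ∧ σ * (h i : ℝ) = |(h i : ℝ)| := by
    rcases le_or_gt 0 (h i : ℝ) with h1 | h1
    · exact ⟨1, Or.inl rfl, by rw [one_mul, abs_of_nonneg h1]⟩
    · exact ⟨-1, Or.inr rfl, by rw [neg_one_mul, abs_of_neg h1]⟩
  refine ⟨i, σ, hσ, fun lo hi' hb => ⟨?_, ?_, ?_, ?_⟩⟩
  · intro m hm' t ht
    exact HasDerivAt.fun_sum fun j _ => (hd j m hm' t ht).const_mul _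
  · intro t ht
    have h1 := (core h i hi hz N Δ hN hΔ hrN hhN σ hσ hσh (s i) (hs i) (fun j => φ j (k + 1) t) (hp i t ht)
      (fun j hj => (hsep i j hj t ht).1)).1
    have h2 := (hb t ht).1
    linarith
  · intro t ht
    have h1 := (core h i hi hz N Δ hN hΔ hrN hhN σ hσ hσh (s i) (hs i) (fun j => φ j (k + 1) t) (hp i t ht)
      (fun j hj => (hsep i j hj t ht).1)).2
    have h2 := (hb t ht).2
    exact h1.trans (mul_le_mul_of_nonneg_left h2 (by linarith))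
  · intro t ht
    have h1 := (core h i hi hz N Δ hN hΔ hrN hhN σ hσ hσh (s' i) (hs' i) (fun j => φ j (k + 2) t) (hm i t ht)
      (fun j hj => (hsep i j hj t ht).2)).1
    have h2 := hm i t ht
    linarith

end Pool.Agent.X29.SC
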