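import Pool.Agent.X29.SC.Comb
import Pool.Agent.X29.SM.Main

/-! Record gaps along several smooth curves at the same time. -/

set_option autoImplicit false

namespace Pool.Agent.X29.SC

open Finset Filter MeasureTheory
open Pool.Agent.TH668.Sm (HyS)
open Pool.Agent.H469R2.NK (e norm_e e_add conj_e)
open Pool.Agent.W147.PS (ff ff_compare ev_pow)
open Pool.Agent.X29.EV (realsF)

set_option maxHeartbeats 4000000 in
theorem several_small (k r : ℕ) (hr : 1 ≤ r) (ε δ : ℝ) (hε : 0 < ε) (hε1 : ε ≤ 1 / 4) (hδ : 0 < δ) :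
    ∃ κ : ℝ, 0 < κ ∧ ∀ᶠ M : ℝ in atTop, ∀ (A : ℝ) (s s' : Fin r → ℝ) (φ : Fin r → ℕ → ℝ → ℝ),
      (∀ j, s j = 1 ∨ s j = -1) → (∀ j, s' j = 1 ∨ s' j = -1) →
      (∀ j, HyS k A (A + M) (M ^ (2 * ε - (k + 1))) (M ^ (-(2 * ε))) (s j) (s' j) (φ j)) →
      (∀ i j, i < j → ∀ t ∈ Set.Icc A (A + M), |φ j (k + 1) t| ≤ M ^ (-ε) * |φ i (k + 1) t| ∧
        |φ j (k + 2) t| ≤ M ^ (-ε) * |φ i (k + 2) t|) →
      ∃ S : Finset ℕ, M ^ (1 - δ) ≤ S.card ∧ ∀ n ∈ S, (n : ℝ) ≤ M ∧ ∀ j, ∀ p : ℕ, p.Prime →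
        κ * ff M < |(p : ℝ) - φ j 0 (A + n)| := by
  classical
  have hk0 : (0 : ℝ) ≤ k := Nat.cast_nonneg k
  obtain ⟨η₀, hη₀, hη₀ε, hsum⟩ := sum_small k ε hε hε1
  obtain ⟨η, hη⟩ : ∃ η : ℝ, η = min (min (η₀ / 2) (δ / 2)) (1 / 16) := ⟨_, rfl⟩
  have hη0 : 0 < η := by rw [hη]; exact lt_min (lt_min (by linarith) (by linarith)) (by norm_num)
  have hη1 : η ≤ η₀ / 2 := by rw [hη]; exact (min_le_left _ _).trans (min_le_left _ _)
  have hη2 : η ≤ δ / 2 := by rw [hη]; exact (min_le_left _ _).trans (min_le_right _ _)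
  have hη3 : η ≤ 1 / 16 := by rw [hη]; exact min_le_right _ _
  obtain ⟨κ, hκ, hrf⟩ := realsF r hr η hη0 (by linarith)
  obtain ⟨J, hJ⟩ : ∃ J : ℕ, J = 8 * (k + 1) := ⟨_, rfl⟩
  have hJ1 : 1 ≤ J := by omega
  have hJr : (J : ℝ) = 8 * (k + 1) := by rw [hJ]; push_cast; ring
  obtain ⟨D, hD⟩ : ∃ D : ℝ, D = 2 * (J : ℝ) ^ r := ⟨_, rfl⟩
  have hJ1r : (1 : ℝ) ≤ J := by exact_mod_cast hJ1
  have hJpow : (1 : ℝ) ≤ (J : ℝ) ^ r := one_le_pow₀ hJ1r
  have hD1 : 1 ≤ D := by rw [hD]; linarith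
  have hD0 : 0 < D := by linarith
  have htend : Tendsto (fun M : ℝ => M / D) atTop atTop := tendsto_id.atTop_div_const hD0
  refine ⟨κ / 64, by positivity, ?_⟩
  filter_upwards [ff_compare (1 / 2) (by norm_num) (by norm_num), eventually_ge_atTop (4 : ℝ),
    eventually_ge_atTop (4 * D), eventually_ge_atTop (D ^ 2), htend.eventually hsum,
    htend.eventually hrf, htend.eventually (ev_pow 0 ε (2 * D ^ (k + 1)) (by linarith)),
    htend.eventually (ev_pow (-η₀) (-η) 1 (by linarith)),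
    htend.eventually (ev_pow (η - 2 * ε) (-ε) 2 (by linarith)),
    htend.eventually (ev_pow (3 / 16 : ℝ) (1 / 2 : ℝ) (4 * D) (by norm_num)),
    htend.eventually (ev_pow (η - ε) 0 (2 * r) (by linarith)),
    ev_pow (1 - δ) (1 - η) (2 * D) (by linarith)]
    with M hff hM4 hMD hMD2 hMsum hMrf hp1 hp2 hp3 hp4 hp5 hp6
  intro A s s' φ hs hs' hy hsep
  have hM0 : 0 < M := lt_of_lt_of_le (by norm_num) hM4
  have hM1 : 1 ≤ M := le_trans (by norm_num) hM4
  have hlogM : 0 < Real.log M := Real.log_pos (lt_of_lt_of_le (by norm_num) hM4)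
  obtain ⟨l, hl⟩ : ∃ l : ℝ, l = M / (J : ℝ) ^ r := ⟨_, rfl⟩
  obtain ⟨M', hM'⟩ : ∃ M' : ℝ, M' = M / D := ⟨_, rfl⟩
  rw [← hM'] at hMsum hMrf hp1 hp2 hp3 hp4 hp5
  rw [Real.rpow_zero] at hp1 hp5
  have hM'l : M' = l / 2 := by
    rw [hM', hl, hD]
    field_simp
  have hM'4 : 4 ≤ M' := by
    rw [hM', le_div_iff₀ hD0]
    exact hMD
  have hM'0 : 0 < M' := by linarith
  have hM'1 : 1 ≤ M' := by linarith
  have hM'M : M' ≤ M := by rw [hM']; exact div_le_self hM0.le hD1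
  have hMDM' : M = D * M' := by rw [hM']; field_simp
  have hl0 : 0 < l := by linarith
  have hJl : (J : ℝ) ^ (univ : Finset (Fin r)).card * l = M := by
    rw [hl, card_univ, Fintype.card_fin]
    field_simp
  have hmono : ∀ x y : ℝ, x ≤ y → M ^ x ≤ M ^ y := fun x y h =>
    Real.rpow_le_rpow_of_exponent_le hM1 h
  have hmono' : ∀ x y : ℝ, x ≤ y → M' ^ x ≤ M' ^ y := fun x y h =>
    Real.rpow_le_rpow_of_exponent_le hM'1 h
  -- the slow part
  obtain ⟨R, hR⟩ : ∃ R : ℝ, R = M ^ (1 / 8 : ℝ) := ⟨_, rfl⟩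
  have hR0 : 0 < R := by rw [hR]; positivity
  have hRJ : R ^ J = M ^ ((k : ℝ) + 1) := by
    rw [hR, ← Real.rpow_natCast, ← Real.rpow_mul hM0.le]
    congr 1
    rw [hJr]
    ring
  obtain ⟨b, v, hb1, hb2, hv1, hv2⟩ := slow_all (univ : Finset (Fin r)) (fun j t => s j * φ j (k + 1) t)
    (fun j t => s j * φ j (k + 2) t) (fun j => s' j * s j) R (M ^ (2 * ε - (k + 1))) (M ^ (-(2 * ε))) J hJ1 hR0
    (fun j => Pool.Agent.X29.SM.sgn_mul (hs' j) (hs j)) (by
      rw [hRJ, ← Real.rpow_add hM0]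
      apply hmono
      linarith) A l hl0
    (fun j t ht => by
      rw [hJl] at ht
      exact ((hy j).der (k + 1) le_rfl t ht).const_mul (s j))
    (fun j t ht => by
      rw [hJl] at ht
      have h1 := (hy j).mono t ht
      have h2 : s' j * s j * (s j * φ j (k + 2) t) = s j * s j * (s' j * φ j (k + 2) t) := by ring
      rw [h2, Pool.Agent.X29.SM.sgn_sq (hs j), one_mul]
      exact h1)
    (fun j t ht => by
      rw [hJl] at ht
      exact (hy j).lo t ht)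
    (fun j t ht => by
      rw [hJl] at ht
      exact (hy j).hi t ht)
  rw [hJl] at hb2
  -- the starting point
  obtain ⟨m, hm⟩ : ∃ m : ℕ, m = ⌈b - A⌉₊ := ⟨_, rfl⟩
  have hbA : 0 ≤ b - A := by linarith
  have hm1 : b - A ≤ m := by rw [hm]; exact Nat.le_ceil _
  have hm2 : (m : ℝ) < b - A + 1 := by rw [hm]; exact Nat.ceil_lt_add_one hbA
  have hsub2 : ∀ t ∈ Set.Icc (A + m) (A + m + M'), t ∈ Set.Icc b (b + l) := by
    intro t ht
    constructor
    · linarith [ht.1]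
    · linarith [ht.2]
  have hsub : ∀ t ∈ Set.Icc (A + m) (A + m + M'), t ∈ Set.Icc A (A + M) := fun t ht =>
    ⟨hb1.trans (hsub2 t ht).1, (hsub2 t ht).2.trans hb2⟩
  obtain ⟨L, hL⟩ : ∃ L : ℕ, L = ⌊M'⌋₊ - 1 := ⟨_, rfl⟩
  have hfl : (⌊M'⌋₊ : ℝ) ≤ M' := Nat.floor_le hM'0.le
  have hfl2 : M' < ⌊M'⌋₊ + 1 := Nat.lt_floor_add_one _
  have hfl1 : 1 ≤ ⌊M'⌋₊ := Nat.le_floor (by simpa using hM'1)
  have hLr : (L : ℝ) = ⌊M'⌋₊ - 1 := by
    rw [hL, Nat.cast_sub hfl1]
    norm_num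
  have hML : M' / 2 ≤ L := by rw [hLr]; linarith
  have hLpos : 0 < L := by
    have : (0 : ℝ) < L := by linarith
    exact_mod_cast this
  have hL0 : (0 : ℝ) < L := by exact_mod_cast hLpos
  obtain ⟨μ, hμ1, hμ2, hμ3⟩ := unif L hLpos
  have key := hMrf (Fin L) _ μ hμ1 (fun n j => φ j 0 (A + m + 1 + (n : ℕ))) (measurable_of_finite _) (by
    intro q hq hqM h hh hhM
    have hq0 : (0 : ℝ) < q := by exact_mod_cast hq
    have hq1 : (1 : ℝ) ≤ q := by exact_mod_cast hq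
    rw [hμ2, norm_div, Complex.norm_natCast, div_le_iff₀ hL0]
    obtain ⟨i, σ, hσ, hc⟩ := comb (k := k) (a := A + m) (b := A + m + M') (N := M' ^ η) (Δ := M' ^ (-ε)) φ s s' hs hs'
      (Real.one_le_rpow hM'1 hη0.le) (by positivity) (by
        rw [mul_assoc, ← Real.rpow_add hM'0]
        have e1 : η + -ε = η - ε := by ring
        rw [e1]
        linarith) (fun j m' hm' t ht => (hy j).der m' hm' t (hsub t ht))
      (fun j t ht => le_trans (by positivity) ((hy j).lo t (hsub t ht)))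
      (fun j t ht => (hy j).mono t (hsub t ht))
      (fun i' j hij t ht => by
        have h1 := hsep i' j hij t (hsub t ht)
        have h2 : M ^ (-ε) ≤ M' ^ (-ε) := Real.rpow_le_rpow_of_nonpos hM'0 hM'M (by linarith)
        exact ⟨h1.1.trans (mul_le_mul_of_nonneg_right h2 (abs_nonneg _)),
          h1.2.trans (mul_le_mul_of_nonneg_right h2 (abs_nonneg _))⟩) h hh hhM
    have hvi := hv1 i (mem_univ i)
    have hvi0 : 0 < v i := lt_of_lt_of_le (by positivity) hvi.1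
    have hN0 : 0 < M' ^ η := by positivity
    have hN1 : 1 ≤ M' ^ η := Real.one_le_rpow hM'1 hη0.le
    have hlohi : v i ≤ min (R * v i) (M ^ (-(2 * ε))) := by
      have h1 := hv2 i (mem_univ i) b ⟨le_rfl, by linarith⟩
      exact le_min (h1.1.trans h1.2) hvi.2
    have hyS := hc (v i) (min (R * v i) (M ^ (-(2 * ε)))) (fun t ht => by
      have h1 := hv2 i (mem_univ i) t (hsub2 t ht)
      exact ⟨h1.1, le_min h1.2 ((hy i).hi t (hsub t ht))⟩)
    have hs1 := hMsum (A + m) (σ * s i) (σ * s' i) (v i / 2) (2 * M' ^ η * min (R * v i) (M ^ (-(2 * ε))))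
      (1 / q) (fun m t => ∑ j, (h j : ℝ) * φ j m t) (Pool.Agent.X29.SM.sgn_mul hσ (hs i))
      (Pool.Agent.X29.SM.sgn_mul hσ (hs' i)) (by
        -- the lower bound
        rw [le_div_iff₀ (by norm_num)]
        refine le_trans ?_ hvi.1
        have e1 : M ^ (2 * ε - (k + 1)) = D ^ (2 * ε - (k + 1)) * M' ^ (2 * ε - (k + 1)) := by
          rw [hMDM', Real.mul_rpow hD0.le hM'0.le]
        have e2 : D ^ (-((k : ℝ) + 1)) ≤ D ^ (2 * ε - (k + 1)) :=
          Real.rpow_le_rpow_of_exponent_le hD1 (by linarith)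
        have e3 : D ^ (-((k : ℝ) + 1)) = (D ^ (k + 1))⁻¹ := by
          rw [Real.rpow_neg hD0.le, ← Real.rpow_natCast]
          push_cast
          rfl
        have e4 : M' ^ (2 * ε - (k + 1)) = M' ^ ε * M' ^ (ε - (k + 1)) := by
          rw [← Real.rpow_add hM'0]
          congr 1
          ring
        rw [e1, e4]
        have h0 : 0 < D ^ (k + 1) := by positivity
        calc M' ^ (ε - (k + 1)) * 2 = (D ^ (k + 1))⁻¹ * ((2 * D ^ (k + 1) * 1) * M' ^ (ε - (k + 1))) := by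
              field_simp
          _ ≤ D ^ (2 * ε - (k + 1)) * (M' ^ ε * M' ^ (ε - (k + 1))) := by
              rw [← e3]
              gcongr) (by
        calc v i / 2 ≤ v i := by linarith
          _ ≤ min (R * v i) (M ^ (-(2 * ε))) := hlohi
          _ ≤ 2 * M' ^ η * min (R * v i) (M ^ (-(2 * ε))) := by
              refine le_mul_of_one_le_left (hvi0.le.trans hlohi) ?_
              linarith) (by
        have h2 : M ^ (-(2 * ε)) ≤ M' ^ (-(2 * ε)) := Real.rpow_le_rpow_of_nonpos hM'0 hM'M (by linarith)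
        calc 2 * M' ^ η * min (R * v i) (M ^ (-(2 * ε))) ≤ 2 * M' ^ η * M' ^ (-(2 * ε)) := by
              gcongr
              exact (min_le_right _ _).trans h2
          _ = 2 * M' ^ (η - 2 * ε) := by
              rw [mul_assoc, ← Real.rpow_add hM'0]
              congr 2
          _ ≤ _ := hp3) (by
        have hDR : R ≤ D * M' ^ (1 / 8 : ℝ) := by
          rw [hR, hMDM', Real.mul_rpow hD0.le hM'0.le]
          gcongr
          calc D ^ (1 / 8 : ℝ) ≤ D ^ (1 : ℝ) := Real.rpow_le_rpow_of_exponent_le hD1 (by norm_num)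
            _ = D := Real.rpow_one D
        calc 2 * M' ^ η * min (R * v i) (M ^ (-(2 * ε))) ≤ 2 * M' ^ (1 / 16 : ℝ) * ((D * M' ^ (1 / 8 : ℝ)) * v i) := by
              have h3 : min (R * v i) (M ^ (-(2 * ε))) ≤ (D * M' ^ (1 / 8 : ℝ)) * v i :=
                (min_le_left _ _).trans (mul_le_mul_of_nonneg_right hDR hvi0.le)
              have h4 := hmono' η (1 / 16) hη3
              have h5 : 0 ≤ (D * M' ^ (1 / 8 : ℝ)) * v i := by positivity
              calc 2 * M' ^ η * min (R * v i) (M ^ (-(2 * ε))) ≤ 2 * M' ^ η * ((D * M' ^ (1 / 8 : ℝ)) * v i) :=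
                    mul_le_mul_of_nonneg_left h3 (by positivity)
                _ ≤ _ := mul_le_mul_of_nonneg_right (by linarith) h5
          _ = (4 * D * M' ^ (3 / 16 : ℝ)) * (v i / 2) := by
              have e5 : M' ^ (3 / 16 : ℝ) = M' ^ (1 / 16 : ℝ) * M' ^ (1 / 8 : ℝ) := by
                rw [← Real.rpow_add hM'0]
                norm_num
              rw [e5]
              ring
          _ ≤ M' ^ (1 / 2 : ℝ) * (v i / 2) := by gcongr) (by
        rw [le_div_iff₀ hq0]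
        calc M' ^ (-η₀) * q ≤ M' ^ (-η₀) * M' ^ η := by gcongr
          _ = M' ^ (-η₀ + η) := by rw [← Real.rpow_add hM'0]
          _ ≤ 1 := Real.rpow_le_one_of_one_le_of_nonpos hM'1 (by linarith)) (by
        rw [div_le_one hq0]
        exact hq1) hyS
    rw [← hL] at hs1
    have e6 : ∑ n : Fin L, e (∑ j, (h j : ℝ) * (φ j 0 (A + m + 1 + (n : ℕ)) / q)) =
        ∑ n ∈ range L, e (1 / q * ∑ j, (h j : ℝ) * φ j 0 (A + m + 1 + n)) := by
      rw [← Fin.sum_univ_eq_sum_range (fun n => e (1 / q * ∑ j, (h j : ℝ) * φ j 0 (A + m + 1 + n))) L]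
      refine sum_congr rfl fun n _ => ?_
      congr 1
      rw [mul_sum]
      refine sum_congr rfl fun j _ => ?_
      ring
    rw [e6]
    refine hs1.trans ?_
    rw [one_mul] at hp2
    exact mul_le_mul_of_nonneg_right hp2 hL0.le)
  obtain ⟨T, hT⟩ : ∃ T : Finset (Fin L), T = univ.filter (fun n : Fin L => ∀ j, ∀ p : ℕ, p.Prime →
        κ * ff M' < |(p : ℝ) - φ j 0 (A + m + 1 + (n : ℕ))|) := ⟨_, rfl⟩
  have hT2 : μ.real {n : Fin L | ∀ j, ∀ p : ℕ, p.Prime →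
      κ * ff M' < |(p : ℝ) - φ j 0 (A + m + 1 + (n : ℕ))|} = (T.card : ℝ) / L := by
    rw [hT]
    exact hμ3 _ _
  rw [hT2, le_div_iff₀ hL0] at key
  have hffM : 0 ≤ ff M := hlogM.le.trans hff.1
  have hffM' : 1 / 2 / 32 * ff M ≤ ff M' := by
    refine (hff.2 M' ?_ ?_).1
    · have h1 : D ≤ M ^ (1 / 2 : ℝ) := by
        rw [← Real.sqrt_eq_rpow]
        exact Real.le_sqrt_of_sq_le hMD2
      rw [hM', le_div_iff₀ hD0]
      calc M ^ (1 / 2 : ℝ) * D ≤ M ^ (1 / 2 : ℝ) * M ^ (1 / 2 : ℝ) := by gcongr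
        _ = M := by rw [← Real.rpow_add hM0]; norm_num
    · nlinarith
  have h4 : κ / 64 * ff M ≤ κ * ff M' := by
    have := mul_le_mul_of_nonneg_left hffM' hκ.le
    linarith
  refine ⟨T.image (fun n : Fin L => m + 1 + (n : ℕ)), ?_, ?_⟩
  · rw [card_image_of_injective _ (by
      intro n n' hnn
      simp only at hnn
      apply Fin.ext
      omega)]
    refine le_trans ?_ key
    have e8 : M' ^ (1 - η) = M' ^ (-η) * M' := by
      rw [← Real.rpow_add_one hM'0.ne']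
      congr 1
      ring
    have e9 : M ^ (1 - η) ≤ D * M' ^ (1 - η) := by
      rw [hMDM', Real.mul_rpow hD0.le hM'0.le]
      gcongr
      calc D ^ (1 - η) ≤ D ^ (1 : ℝ) := Real.rpow_le_rpow_of_exponent_le hD1 (by linarith)
        _ = D := Real.rpow_one D
    have e10 : M' ^ (1 - η) / 2 ≤ M' ^ (-η) * L := by
      rw [e8]
      have : 0 < M' ^ (-η) := by positivity
      nlinarith
    have e11 : 2 * D * M ^ (1 - δ) ≤ D * M' ^ (1 - η) := hp6.trans e9
    have e12 : 2 * M ^ (1 - δ) ≤ M' ^ (1 - η) := by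
      have : D * (2 * M ^ (1 - δ)) ≤ D * M' ^ (1 - η) := by linarith
      exact le_of_mul_le_mul_left this hD0
    linarith
  · intro n' hn'
    rw [mem_image] at hn'
    obtain ⟨n, hn, rfl⟩ := hn'
    rw [hT, mem_filter] at hn
    constructor
    · have hnL : ((n : ℕ) : ℝ) + 1 ≤ L := by exact_mod_cast n.2
      have h1 : A + m + (1 + (n : ℕ)) ∈ Set.Icc (A + m) (A + m + M') :=
        ⟨by have := Nat.cast_nonneg (α := ℝ) n; linarith, by linarith⟩
      have h2 := (hsub _ h1).2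
      push_cast
      linarith
    · intro j p hp
      have h5 := hn.2 j p hp
      have e7 : A + ((m + 1 + (n : ℕ) : ℕ) : ℝ) = A + m + 1 + (n : ℕ) := by push_cast; ring
      rw [e7]
      exact h4.trans_lt h5

/-- **several curves** -/
theorem several (k r : ℕ) (hr : 1 ≤ r) (ε δ : ℝ) (hε : 0 < ε) (hδ : 0 < δ) :
    ∃ κ : ℝ, 0 < κ ∧ ∀ᶠ M : ℝ in atTop, ∀ (A : ℝ) (s s' : Fin r → ℝ) (φ : Fin r → ℕ → ℝ → ℝ),
      (∀ j, s j = 1 ∨ s j = -1) → (∀ j, s' j = 1 ∨ s' j = -1) →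
      (∀ j, HyS k A (A + M) (M ^ (ε - (k + 1))) (M ^ (-ε)) (s j) (s' j) (φ j)) →
      (∀ i j, i < j → ∀ t ∈ Set.Icc A (A + M), |φ j (k + 1) t| ≤ M ^ (-ε) * |φ i (k + 1) t| ∧
        |φ j (k + 2) t| ≤ M ^ (-ε) * |φ i (k + 2) t|) →
      ∃ S : Finset ℕ, M ^ (1 - δ) ≤ S.card ∧ ∀ n ∈ S, (n : ℝ) ≤ M ∧ ∀ j, ∀ p : ℕ, p.Prime →
        κ * ff M < |(p : ℝ) - φ j 0 (A + n)| := by
  obtain ⟨ε₁, hε₁⟩ : ∃ ε₁ : ℝ, ε₁ = min (ε / 2) (1 / 4) := ⟨_, rfl⟩
  have h1 : 0 < ε₁ := by rw [hε₁]; exact lt_min (by linarith) (by norm_num)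
  have h2 : ε₁ ≤ 1 / 4 := by rw [hε₁]; exact min_le_right _ _
  have h3 : 2 * ε₁ ≤ ε := by
    have := min_le_left (ε / 2) (1 / 4)
    rw [← hε₁] at this
    linarith
  obtain ⟨κ, hκ, h⟩ := several_small k r hr ε₁ δ h1 h2 hδ
  refine ⟨κ, hκ, ?_⟩
  filter_upwards [h, eventually_ge_atTop 1] with M hM hM1
  intro A s s' φ hs hs' hy hsep
  have hmono : ∀ x y : ℝ, x ≤ y → M ^ x ≤ M ^ y := fun x y h =>
    Real.rpow_le_rpow_of_exponent_le hM1 h
  refine hM A s s' φ hs hs' (fun j => ⟨(hy j).der, fun t ht => ?_, fun t ht => ?_, (hy j).mono⟩) ?_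
  · exact (hmono _ _ (by linarith)).trans ((hy j).lo t ht)
  · exact ((hy j).hi t ht).trans (hmono _ _ (by linarith))
  · intro i j hij t ht
    have h4 := hsep i j hij t ht
    have h5 := hmono (-ε) (-ε₁) (by linarith)
    exact ⟨h4.1.trans (mul_le_mul_of_nonneg_right h5 (abs_nonneg _)),
      h4.2.trans (mul_le_mul_of_nonneg_right h5 (abs_nonneg _))⟩

/-- the coefficients of the derivatives of a power -/
noncomputable def PP (c : ℝ) (m : ℕ) : ℝ := ∏ i ∈ range m, (c - i)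

lemma PP_ne {c : ℝ} (hc : ∀ m : ℕ, c ≠ m) (m : ℕ) : PP c m ≠ 0 :=
  prod_ne_zero_iff.2 fun i _ => sub_ne_zero.2 (hc i)

/-- **several powers** -/
theorem powers (r : ℕ) (hr : 1 ≤ r) (c a : Fin r → ℝ) (hc0 : ∀ j, 0 < c j) (hc : ∀ j, ∀ m : ℕ, c j ≠ m)
    (hcc : ∀ i j, i < j → c j < c i) (ha : ∀ j, a j ≠ 0) (δ : ℝ) (hδ : 0 < δ) :
    ∃ κ : ℝ, 0 < κ ∧ ∀ᶠ N : ℕ in atTop, ∃ S : Finset ℕ, (N : ℝ) ^ (1 - δ) ≤ S.card ∧
      ∀ n ∈ S, N ≤ n ∧ n ≤ 2 * N ∧ ∀ j, ∀ p : ℕ, p.Prime →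
        κ * ff N < |(p : ℝ) - a j * (n : ℝ) ^ (c j)| := by
  obtain ⟨k, hk⟩ : ∃ k : ℕ, ∀ j, c j ≤ k := by
    obtain ⟨k, hk⟩ := exists_nat_ge (∑ j, c j)
    refine ⟨k, fun j => le_trans ?_ hk⟩
    exact single_le_sum (f := c) (fun i _ => (hc0 i).le) (mem_univ j)
  -- the constant
  obtain ⟨ε, hε, hε1, hε2⟩ : ∃ ε : ℝ, 0 < ε ∧ (∀ j, 2 * ε ≤ c j) ∧ ∀ i j, i < j → c j + 2 * ε ≤ c i := by
    have key : ∀ᶠ ε : ℝ in nhdsWithin 0 (Set.Ioi 0), (∀ j, 2 * ε ≤ c j) ∧ ∀ i j, i < j → c j + 2 * ε ≤ c i := by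
      refine Filter.Eventually.and ?_ ?_
      · rw [Filter.eventually_all]
        intro j
        have : ∀ᶠ ε : ℝ in nhds 0, ε < c j / 2 := eventually_lt_nhds (by linarith [hc0 j])
        filter_upwards [mem_nhdsWithin_of_mem_nhds this] with ε h
        linarith
      · rw [Filter.eventually_all]
        intro i
        rw [Filter.eventually_all]
        intro j
        by_cases hij : i < j
        · have : ∀ᶠ ε : ℝ in nhds 0, ε < (c i - c j) / 2 :=
            eventually_lt_nhds (by linarith [hcc i j hij])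
          filter_upwards [mem_nhdsWithin_of_mem_nhds this] with ε h hij2
          linarith
        · exact Filter.Eventually.of_forall fun _ h => absurd h hij
    obtain ⟨ε, h1, h2⟩ := (key.and self_mem_nhdsWithin).exists
    exact ⟨ε, h2, h1⟩
  obtain ⟨ε', hε'⟩ : ∃ ε' : ℝ, ε' = min ε (1 / 2) := ⟨_, rfl⟩
  have hε'0 : 0 < ε' := by rw [hε']; exact lt_min hε (by norm_num)
  have hε'1 : ε' ≤ ε := by rw [hε']; exact min_le_left _ _
  have hε'2 : ε' ≤ 1 / 2 := by rw [hε']; exact min_le_right _ _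
  obtain ⟨κ, hκ, h⟩ := several k r hr ε' δ hε'0 hδ
  refine ⟨κ, hκ, ?_⟩
  obtain ⟨b, hb⟩ : ∃ b : Fin r → ℕ → ℝ, b = fun j m => a j * PP (c j) m := ⟨_, rfl⟩
  have hb0 : ∀ j m, b j m ≠ 0 := fun j m => by
    rw [hb]
    exact mul_ne_zero (ha j) (PP_ne (hc j) m)
  have hbp : ∀ j m, 0 < |b j m| := fun j m => abs_pos.2 (hb0 j m)
  -- the inequalities for large `M`
  have e1 : ∀ᶠ M : ℝ in atTop, ∀ j, M ^ (ε' - (k + 1)) ≤ |b j (k + 1)| * (2 * M) ^ (c j - (k + 1)) := by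
    rw [Filter.eventually_all]
    intro j
    filter_upwards [ev_pow (ε' - (k + 1)) (c j - (k + 1)) (1 / (|b j (k + 1)| * 2 ^ (c j - (k + 1))))
      (by linarith [hε1 j]), eventually_gt_atTop 0] with M hM hM0
    have h2 : (0 : ℝ) < 2 ^ (c j - (k + 1)) := by positivity
    have h3 := hbp j (k + 1)
    rw [Real.mul_rpow (by norm_num) hM0.le, ← mul_assoc]
    rw [one_div, inv_mul_le_iff₀ (by positivity)] at hM
    exact hM
  have e2 : ∀ᶠ M : ℝ in atTop, ∀ j, |b j (k + 1)| * M ^ (c j - (k + 1)) ≤ M ^ (-ε') := by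
    rw [Filter.eventually_all]
    intro j
    exact ev_pow _ _ _ (by linarith [hk j])
  have e3 : ∀ m : ℕ, ∀ᶠ M : ℝ in atTop, ∀ i j, i < j → |b j m| * M ^ (c j - c i) ≤ M ^ (-ε') * |b i m| := by
    intro m
    rw [Filter.eventually_all]
    intro i
    rw [Filter.eventually_all]
    intro j
    by_cases hij : i < j
    · filter_upwards [ev_pow (c j - c i) (-ε') (|b j m| / |b i m|) (by linarith [hε2 i j hij])] with M hM _
      have h3 := hbp i m
      calc |b j m| * M ^ (c j - c i) = (|b j m| / |b i m| * M ^ (c j - c i)) * |b i m| := by field_simp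
        _ ≤ _ := by gcongr
    · exact Filter.Eventually.of_forall fun _ h => absurd h hij
  filter_upwards [tendsto_natCast_atTop_atTop.eventually h, tendsto_natCast_atTop_atTop.eventually e1,
    tendsto_natCast_atTop_atTop.eventually e2, tendsto_natCast_atTop_atTop.eventually (e3 (k + 1)),
    tendsto_natCast_atTop_atTop.eventually (e3 (k + 2)), eventually_ge_atTop 1] with N hN h1 h2 h3 h4 hN1
  have hN1r : (1 : ℝ) ≤ N := by exact_mod_cast hN1
  have hN0 : (0 : ℝ) < N := by linarith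
  have hsgn : ∀ x : ℝ, ∃ s : ℝ, (s = 1 ∨ s = -1) ∧ s * x = |x| := by
    intro x
    rcases le_or_gt 0 x with h1 | h1
    · exact ⟨1, Or.inl rfl, by rw [one_mul, abs_of_nonneg h1]⟩
    · exact ⟨-1, Or.inr rfl, by rw [neg_one_mul, abs_of_neg h1]⟩
  choose s hs hsx using fun j => hsgn (b j (k + 1))
  choose s' hs' hsx' using fun j => hsgn (b j (k + 2))
  have hy : ∀ j, HyS k N (N + N) ((N : ℝ) ^ (ε' - (k + 1))) ((N : ℝ) ^ (-ε')) (s j) (s' j)
      (fun m t => b j m * t ^ (c j - m)) := by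
    intro j
    refine ⟨?_, ?_, ?_, ?_⟩
    · intro m _ t ht
      have ht0 : t ≠ 0 := by
        have := ht.1
        intro h5
        linarith
      have h5 := (Real.hasDerivAt_rpow_const (x := t) (p := c j - m) (Or.inl ht0)).const_mul (b j m)
      have h6 : b j (m + 1) * t ^ (c j - ((m + 1 : ℕ) : ℝ)) = b j m * ((c j - m) * t ^ (c j - m - 1)) := by
        rw [hb]
        simp only [PP, prod_range_succ]
        push_cast
        rw [sub_add_eq_sub_sub]
        ring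
      rw [h6]
      exact h5
    · intro t ht
      have ht0 : 0 < t := lt_of_lt_of_le hN0 ht.1
      have e4 : s j * (b j (k + 1) * t ^ (c j - ((k + 1 : ℕ) : ℝ))) = |b j (k + 1)| * t ^ (c j - (k + 1)) := by
        rw [← mul_assoc, hsx j]
        push_cast
        rfl
      rw [e4]
      refine (h1 j).trans ?_
      have h5 : (2 * (N : ℝ)) ^ (c j - (k + 1)) ≤ t ^ (c j - (k + 1)) :=
        Real.rpow_le_rpow_of_nonpos ht0 (by linarith [ht.2]) (by linarith [hk j])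
      exact mul_le_mul_of_nonneg_left h5 (abs_nonneg _)
    · intro t ht
      have ht0 : 0 < t := lt_of_lt_of_le hN0 ht.1
      have e4 : s j * (b j (k + 1) * t ^ (c j - ((k + 1 : ℕ) : ℝ))) = |b j (k + 1)| * t ^ (c j - (k + 1)) := by
        rw [← mul_assoc, hsx j]
        push_cast
        rfl
      rw [e4]
      refine le_trans ?_ (h2 j)
      have h5 : t ^ (c j - (k + 1)) ≤ (N : ℝ) ^ (c j - (k + 1)) :=
        Real.rpow_le_rpow_of_nonpos hN0 ht.1 (by linarith [hk j])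
      exact mul_le_mul_of_nonneg_left h5 (abs_nonneg _)
    · intro t ht
      have ht0 : 0 < t := lt_of_lt_of_le hN0 ht.1
      rw [← mul_assoc, hsx' j]
      positivity
  have hsep : ∀ i j, i < j → ∀ t ∈ Set.Icc (N : ℝ) (N + N),
      |b j (k + 1) * t ^ (c j - ((k + 1 : ℕ) : ℝ))| ≤ (N : ℝ) ^ (-ε') * |b i (k + 1) * t ^ (c i - ((k + 1 : ℕ) : ℝ))| ∧
      |b j (k + 2) * t ^ (c j - ((k + 2 : ℕ) : ℝ))| ≤ (N : ℝ) ^ (-ε') * |b i (k + 2) * t ^ (c i - ((k + 2 : ℕ) : ℝ))| := by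
    intro i j hij t ht
    have ht0 : 0 < t := lt_of_lt_of_le hN0 ht.1
    have h5 : t ^ (c j - c i) ≤ (N : ℝ) ^ (c j - c i) :=
      Real.rpow_le_rpow_of_nonpos hN0 ht.1 (by linarith [hcc i j hij])
    have gen : ∀ m : ℕ, |b j m| * (N : ℝ) ^ (c j - c i) ≤ (N : ℝ) ^ (-ε') * |b i m| →
        |b j m * t ^ (c j - m)| ≤ (N : ℝ) ^ (-ε') * |b i m * t ^ (c i - m)| := by
      intro m hm
      have h6 : 0 < t ^ (c i - m) := by positivity
      have h7 : 0 < t ^ (c j - m) := by positivity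
      rw [abs_mul, abs_mul, abs_of_pos h6, abs_of_pos h7]
      have h8 : t ^ (c j - m) = t ^ (c j - c i) * t ^ (c i - m) := by
        rw [← Real.rpow_add ht0]
        congr 1
        ring
      rw [h8]
      calc |b j m| * (t ^ (c j - c i) * t ^ (c i - m)) ≤ |b j m| * ((N : ℝ) ^ (c j - c i) * t ^ (c i - m)) := by
            gcongr
        _ = (|b j m| * (N : ℝ) ^ (c j - c i)) * t ^ (c i - m) := by ring
        _ ≤ ((N : ℝ) ^ (-ε') * |b i m|) * t ^ (c i - m) := mul_le_mul_of_nonneg_right hm h6.le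
        _ = _ := by ring
    exact ⟨gen (k + 1) (h3 i j hij), gen (k + 2) (h4 i j hij)⟩
  obtain ⟨S, hS1, hS2⟩ := hN (N : ℝ) s s' (fun j m t => b j m * t ^ (c j - m)) hs hs' hy hsep
  refine ⟨S.image (fun n => N + n), ?_, ?_⟩
  · rw [card_image_of_injective _ (add_right_injective N)]
    exact hS1
  · intro n' hn'
    rw [mem_image] at hn'
    obtain ⟨n, hn, rfl⟩ := hn'
    obtain ⟨h5, h6⟩ := hS2 n hn
    have h7 : n ≤ N := by exact_mod_cast h5
    refine ⟨by omega, by omega, fun j p hp => ?_⟩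
    have h8 := h6 j p hp
    have h9 : b j 0 = a j := by
      rw [hb]
      simp [PP]
    simp only [h9, Nat.cast_zero, sub_zero] at h8
    push_cast
    exact h8

end Pool.Agent.X29.SC
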