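import Pool.Agent.X29.SM.Uni

/-! A bound for exponential sums with one smooth phase, uniform in the size of the derivative. -/

set_option autoImplicit false

namespace Pool.Agent.X29.SC

open Finset Filter
open Pool.Agent.TH915.PW
open Pool.Agent.TH668.Sm (HyS)
open Pool.Agent.H469R2.NK (e norm_e e_add conj_e Cq Cq_pos)
open Pool.Agent.W147.PS (ff ff_compare ev_pow)
open Pool.Agent.X29.SM (exp_gen)
open Pool.Agent.Y719.LP (log_small)

/-- the choice of the exponent of the shifts -/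
lemma choose_h (k : ℕ) (ε b1 b2 : ℝ) (hε : 0 < ε) (hε1 : ε ≤ 1 / 4) (h1 : b1 ≤ k + 1 - ε) (h2 : ε ≤ b2)
    (h3 : b1 ≤ b2 + 1 / 2) : ∃ h : ℝ, ε / (k + 1) ≤ h ∧ h ≤ 1 - ε / (k + 1) ∧
      b1 - 1 + ε / (k + 1) ≤ k * h ∧ k * h ≤ b2 - ε / (k + 1) := by
  have hk0 : (0 : ℝ) ≤ k := Nat.cast_nonneg k
  obtain ⟨u, hu⟩ : ∃ u : ℝ, u = ε / (k + 1) := ⟨_, rfl⟩
  rw [← hu]
  have hu0 : 0 < u := by rw [hu]; positivity
  have hku : k * u + u = ε := by rw [hu]; field_simp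
  have hku0 : 0 ≤ k * u := by positivity
  rcases Nat.eq_zero_or_pos k with rfl | hk
  · push_cast at *
    refine ⟨1 / 2, by linarith, by linarith, by linarith, by linarith⟩
  · have hk' : (1 : ℝ) ≤ k := by exact_mod_cast hk
    have hkne : (k : ℝ) ≠ 0 := by linarith
    obtain ⟨w, hw⟩ : ∃ w : ℝ, w = max (b1 - 1 + u) (k * u) := ⟨_, rfl⟩
    have hw1 : b1 - 1 + u ≤ w := by rw [hw]; exact le_max_left _ _
    have hw2 : k * u ≤ w := by rw [hw]; exact le_max_right _ _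
    have e1 : k * (w / k) = w := by field_simp
    refine ⟨w / k, ?_, ?_, ?_, ?_⟩
    · rw [le_div_iff₀ (by linarith)]
      linarith
    · rw [div_le_iff₀ (by linarith), hw]
      apply max_le
      · nlinarith
      · nlinarith
    · rw [e1]; exact hw1
    · rw [e1, hw]
      apply max_le
      · linarith
      · linarith

set_option maxHeartbeats 4000000 in
/-- **the bound** -/
theorem sum_small (k : ℕ) (ε : ℝ) (hε : 0 < ε) (hε1 : ε ≤ 1 / 4) :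
    ∃ η : ℝ, 0 < η ∧ η ≤ ε ∧ ∀ᶠ M : ℝ in atTop, ∀ (A s s' lo hi θ : ℝ) (φ : ℕ → ℝ → ℝ),
      (s = 1 ∨ s = -1) → (s' = 1 ∨ s' = -1) →
      M ^ (ε - (k + 1)) ≤ lo → lo ≤ hi → hi ≤ M ^ (-ε) → hi ≤ M ^ (1 / 2 : ℝ) * lo →
      M ^ (-η) ≤ θ → θ ≤ 1 → HyS k A (A + M) lo hi s s' φ →
      ‖∑ n ∈ range (⌊M⌋₊ - 1), e (θ * φ 0 (A + 1 + n))‖ ≤ M ^ (-η) * (⌊M⌋₊ - 1 : ℕ) := by
  have hk0 : (0 : ℝ) ≤ k := Nat.cast_nonneg k
  obtain ⟨u, hu⟩ : ∃ u : ℝ, u = ε / (k + 1) := ⟨_, rfl⟩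
  have hu0 : 0 < u := by rw [hu]; positivity
  have huε : u ≤ ε := by rw [hu]; exact div_le_self hε.le (by linarith)
  obtain ⟨σ, hσ⟩ : ∃ σ : ℝ, σ = u / 2 := ⟨_, rfl⟩
  have hσ0 : 0 < σ := by linarith
  obtain ⟨δ', hδ'⟩ : ∃ δ' : ℝ, δ' = σ / 2 ^ k := ⟨_, rfl⟩
  have hδ'0 : 0 < δ' := by rw [hδ']; positivity
  have h2k : (1 : ℝ) ≤ 2 ^ k := one_le_pow₀ (by norm_num)
  have hδ'σ : δ' ≤ σ := by rw [hδ']; exact div_le_self hσ0.le h2k
  obtain ⟨η, hη⟩ : ∃ η : ℝ, η = δ' / 4 := ⟨_, rfl⟩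
  have hη0 : 0 < η := by linarith
  obtain ⟨τ, hτ⟩ : ∃ τ : ℝ, τ = u / (4 * (k + 1)) := ⟨_, rfl⟩
  have hτ0 : 0 < τ := by rw [hτ]; positivity
  have hkτ : k * τ ≤ u / 4 := by
    have e1 : τ * (4 * (k + 1)) = u := by rw [hτ]; field_simp
    have e2 : τ * (4 * (k + 1)) = 4 * (k * τ) + 4 * τ := by ring
    linarith
  have hCq := Cq_pos k
  obtain ⟨C₂, hC₂⟩ : ∃ C₂ : ℝ, C₂ = 4 * 2 ^ k := ⟨_, rfl⟩
  have hC₂0 : 0 < C₂ := by rw [hC₂]; positivity
  obtain ⟨C₁, hC₁⟩ : ∃ C₁ : ℝ, C₁ = (Cq k * (2 + C₂)) ^ ((1 : ℝ) / 2 ^ k) := ⟨_, rfl⟩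
  have hC₁0 : 0 < C₁ := by rw [hC₁]; positivity
  refine ⟨η, hη0, by linarith, ?_⟩
  filter_upwards [eventually_ge_atTop (4 : ℝ),
    ev_pow (-δ') (-η) C₁ (by linarith),
    ev_pow (-u) 0 2 (by linarith),
    (tendsto_rpow_atTop hu0).eventually_ge_atTop 2,
    ev_pow (1 - u) 1 4 (by linarith), log_small τ hτ0]
    with M hM4 hp1 hp2 hp4 hp6 hp7
  have hM0 : 0 < M := lt_of_lt_of_le (by norm_num) hM4
  have hM1 : 1 ≤ M := le_trans (by norm_num) hM4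
  have hMgt : 1 < M := lt_of_lt_of_le (by norm_num) hM4
  have hlogM : 0 < Real.log M := Real.log_pos hMgt
  rw [Real.rpow_one] at hp6
  rw [Real.rpow_zero] at hp2
  intro A s s' lo hi θ φ hs hs' hlo hlohi hhi hhl hθlow1 hθup hy
  have hlo0 : 0 < lo := lt_of_lt_of_le (by positivity) hlo
  have hhi0 : 0 < hi := lt_of_lt_of_le hlo0 hlohi
  obtain ⟨b1, hb1⟩ : ∃ b : ℝ, b = -(Real.log lo / Real.log M) := ⟨_, rfl⟩
  obtain ⟨b2, hb2⟩ : ∃ b : ℝ, b = -(Real.log hi / Real.log M) := ⟨_, rfl⟩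
  have elo : lo = M ^ (-b1) := by
    rw [hb1, neg_neg, Real.rpow_def_of_pos hM0, mul_div_cancel₀ _ hlogM.ne', Real.exp_log hlo0]
  have ehi : hi = M ^ (-b2) := by
    rw [hb2, neg_neg, Real.rpow_def_of_pos hM0, mul_div_cancel₀ _ hlogM.ne', Real.exp_log hhi0]
  have hbb1 : b1 ≤ k + 1 - ε := by
    rw [elo, Real.rpow_le_rpow_left_iff hMgt] at hlo
    linarith
  have hbb2 : ε ≤ b2 := by
    rw [ehi, Real.rpow_le_rpow_left_iff hMgt] at hhi
    linarith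
  have hbb3 : b1 ≤ b2 + 1 / 2 := by
    rw [elo, ehi, ← Real.rpow_add hM0, Real.rpow_le_rpow_left_iff hMgt] at hhl
    linarith
  obtain ⟨h, hh1, hh2, hh3, hh4⟩ := choose_h k ε b1 b2 hε hε1 hbb1 hbb2 hbb3
  rw [← hu] at hh1 hh2 hh3 hh4
  have hmono : ∀ x y : ℝ, x ≤ y → M ^ x ≤ M ^ y := fun x y h =>
    Real.rpow_le_rpow_of_exponent_le hM1 h
  obtain ⟨L, hL⟩ : ∃ L : ℕ, L = ⌊M⌋₊ - 1 := ⟨_, rfl⟩
  rw [← hL]
  have hfl : (⌊M⌋₊ : ℝ) ≤ M := Nat.floor_le hM0.le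
  have hfl2 : M < ⌊M⌋₊ + 1 := Nat.lt_floor_add_one _
  have hfl1 : 1 ≤ ⌊M⌋₊ := Nat.le_floor (by simpa using hM1)
  have hLr : (L : ℝ) = ⌊M⌋₊ - 1 := by
    rw [hL, Nat.cast_sub hfl1]
    norm_num
  have hLM : (L : ℝ) + 1 ≤ M := by rw [hLr]; linarith
  have hML : M / 2 ≤ L := by rw [hLr]; linarith
  have hLpos : 0 < L := by
    have : (0 : ℝ) < L := by linarith
    exact_mod_cast this
  have hL0 : (0 : ℝ) < L := by exact_mod_cast hLpos
  obtain ⟨H, hH⟩ : ∃ H : ℕ, H = ⌊M ^ h⌋₊ := ⟨_, rfl⟩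
  have hHM : (H : ℝ) ≤ M ^ h := by rw [hH]; exact Nat.floor_le (by positivity)
  have hMh2 : 2 ≤ M ^ h := hp4.trans (hmono _ _ hh1)
  have hMH : M ^ h / 2 ≤ H := by
    have := Nat.lt_floor_add_one (M ^ h)
    rw [← hH] at this
    linarith
  have hMhup : M ^ h ≤ M / 4 := by
    have := hmono _ _ hh2
    linarith
  have hH0 : (0 : ℝ) < H := by linarith
  have hH1 : 1 ≤ H := by exact_mod_cast hH0
  have hH1r : (1 : ℝ) ≤ H := by exact_mod_cast hH1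
  have hHL : H ≤ L := by
    have : (H : ℝ) ≤ L := by linarith
    exact_mod_cast this
  have hy' : HyS k A (A + L + 1) lo hi s s' φ := by
    have hsub : ∀ t ∈ Set.Icc A (A + L + 1), t ∈ Set.Icc A (A + M) := fun t ht =>
      ⟨ht.1, ht.2.trans (by linarith)⟩
    exact ⟨fun m hm t ht => hy.der m hm t (hsub t ht), fun t ht => hy.lo t (hsub t ht),
      fun t ht => hy.hi t (hsub t ht), fun t ht => hy.mono t (hsub t ht)⟩
  have hθ0 : 0 < θ := lt_of_lt_of_le (by positivity) hθlow1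
  have hθlow : 1 / θ ≤ M ^ η := by
    rw [div_le_iff₀ hθ0]
    calc (1 : ℝ) = M ^ η * M ^ (-η) := by rw [← Real.rpow_add hM0, add_neg_cancel, Real.rpow_zero]
      _ ≤ M ^ η * θ := by gcongr
  have hHk : (H : ℝ) ^ k ≤ M ^ (k * h) := by
    calc (H : ℝ) ^ k ≤ (M ^ h) ^ k := pow_le_pow_left₀ (Nat.cast_nonneg _) hHM k
      _ = M ^ (k * h) := by rw [← Real.rpow_natCast, ← Real.rpow_mul hM0.le, mul_comm]
  have hcond : 2 * (θ * (hi * (H : ℝ) ^ k)) ≤ 1 := by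
    calc 2 * (θ * (hi * (H : ℝ) ^ k)) ≤
        2 * (1 * (M ^ (-b2) * M ^ (k * h))) := by
          rw [ehi]
          gcongr
      _ = 2 * M ^ (-b2 + k * h) := by
          rw [Real.rpow_add hM0, one_mul]
      _ ≤ 2 * M ^ (-u) := by
          have := hmono (-b2 + k * h) (-u) (by linarith)
          linarith
      _ ≤ 1 := hp2
  have hexp := exp_gen hs hs' hlo0 hhi0.le θ hθ0 L H hy' hLpos hH1 hHL hcond
  have hb : Cq k * (1 / H + 2 / (θ * lo) / L * ((1 + Real.log H) / H) ^ k) ≤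
      (Cq k * (2 + C₂)) * M ^ (-σ) := by
    have e1 : 1 / (H : ℝ) ≤ 2 * M ^ (-σ) := by
      have e0 : M ^ (-h) ≤ M ^ (-σ) := hmono _ _ (by linarith)
      have e2 : 1 / (H : ℝ) ≤ 2 * M ^ (-h) := by
        rw [Real.rpow_neg hM0.le, div_le_iff₀ (by linarith : (0 : ℝ) < H)]
        have h5 : (0 : ℝ) < M ^ h := by positivity
        calc (1 : ℝ) = 2 * (M ^ h)⁻¹ * (M ^ h / 2) := by field_simp
          _ ≤ _ := by gcongr
      linarith
    have e2 : 2 / (θ * lo) / L * ((1 + Real.log H) / H) ^ k ≤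
        C₂ * M ^ (-σ) := by
      have e3 : 2 / (θ * lo) / L * ((1 + Real.log H) / H) ^ k =
          2 * (1 / θ) * M ^ b1 * (1 / L) * ((1 + Real.log H) / H) ^ k := by
        rw [elo, Real.rpow_neg hM0.le]
        field_simp
      rw [e3]
      have e5 : 1 / (L : ℝ) ≤ 2 * M ^ (-1 : ℝ) := by
        rw [Real.rpow_neg_one, div_le_iff₀ hL0]
        calc (1 : ℝ) = 2 * M⁻¹ * (M / 2) := by field_simp
          _ ≤ _ := by gcongr
      have e6 : (1 + Real.log H) / H ≤ 2 * M ^ (τ - h) := by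
        have f1 : 1 + Real.log H ≤ M ^ τ := by
          refine le_trans ?_ hp7
          have := Real.log_le_log (by linarith) (show (H : ℝ) ≤ M by linarith)
          linarith
        have f0 : (0 : ℝ) < M ^ h := by positivity
        rw [div_le_iff₀ (by linarith : (0 : ℝ) < H), sub_eq_add_neg, Real.rpow_add hM0,
          Real.rpow_neg hM0.le]
        calc 1 + Real.log H ≤ M ^ τ := f1
          _ = 2 * (M ^ τ * (M ^ h)⁻¹) * (M ^ h / 2) := by field_simp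
          _ ≤ _ := by gcongr
      have e60 : 0 ≤ (1 + Real.log H) / H := by
        have := Real.log_nonneg hH1r
        positivity
      have e7 : ((1 + Real.log H) / H) ^ k ≤ 2 ^ k * M ^ (k * (τ - h)) := by
        calc ((1 + Real.log H) / H) ^ k ≤ (2 * M ^ (τ - h)) ^ k :=
              pow_le_pow_left₀ e60 e6 k
          _ = 2 ^ k * M ^ (k * (τ - h)) := by
              rw [mul_pow, ← Real.rpow_natCast (M ^ (τ - h)), ← Real.rpow_mul hM0.le,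
                mul_comm (τ - h)]
      have e70 : 0 ≤ ((1 + Real.log H) / H) ^ k := pow_nonneg e60 k
      calc 2 * (1 / θ) * M ^ b1 * (1 / L) * ((1 + Real.log H) / H) ^ k ≤
          2 * M ^ η * M ^ b1 * (2 * M ^ (-1 : ℝ)) * (2 ^ k * M ^ (k * (τ - h))) := by
            gcongr
        _ = C₂ * (M ^ η * M ^ b1 * M ^ (-1 : ℝ) * M ^ (k * (τ - h))) := by rw [hC₂]; ring
        _ = C₂ * M ^ (η + b1 + -1 + k * (τ - h)) := by
            rw [Real.rpow_add hM0, Real.rpow_add hM0, Real.rpow_add hM0]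
        _ ≤ C₂ * M ^ (-σ) := by
            apply mul_le_mul_of_nonneg_left _ hC₂0.le
            apply hmono
            have e8 : (k : ℝ) * (τ - h) = k * τ - k * h := by ring
            rw [e8]
            linarith
    calc Cq k * (1 / H + 2 / (θ * lo) / L * ((1 + Real.log H) / H) ^ k) ≤
        Cq k * (2 * M ^ (-σ) + C₂ * M ^ (-σ)) := by gcongr
      _ = _ := by ring
  have hroot := root_le _ _ k (by positivity) (hexp.trans hb)
  have hr2 : ((Cq k * (2 + C₂)) * M ^ (-σ)) ^ ((1 : ℝ) / 2 ^ k) = C₁ * M ^ (-δ') := by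
    rw [Real.mul_rpow (by positivity) (by positivity), ← Real.rpow_mul hM0.le, hC₁, hδ']
    congr 2
    ring
  rw [hr2, div_le_iff₀ hL0] at hroot
  refine hroot.trans ?_
  exact mul_le_mul_of_nonneg_right hp1 hL0.le

/-- a common subinterval on which finitely many monotone functions vary little -/
lemma slow_all {ι : Type} [DecidableEq ι] (T : Finset ι) (ψ ψ' : ι → ℝ → ℝ) (μ : ι → ℝ) (R lo hi : ℝ) (J : ℕ) (hJ : 1 ≤ J)
    (hR : 0 < R) (hμ : ∀ i, μ i = 1 ∨ μ i = -1) (h : hi ≤ R ^ J * lo) :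
    ∀ (a l : ℝ), 0 < l →
    (∀ i, ∀ t ∈ Set.Icc a (a + J ^ T.card * l), HasDerivAt (ψ i) (ψ' i t) t) →
    (∀ i, ∀ t ∈ Set.Icc a (a + J ^ T.card * l), 0 ≤ μ i * ψ' i t) →
    (∀ i, ∀ t ∈ Set.Icc a (a + J ^ T.card * l), lo ≤ ψ i t) →
    (∀ i, ∀ t ∈ Set.Icc a (a + J ^ T.card * l), ψ i t ≤ hi) →
    ∃ (b : ℝ) (v : ι → ℝ), a ≤ b ∧ b + l ≤ a + J ^ T.card * l ∧ (∀ i ∈ T, lo ≤ v i ∧ v i ≤ hi) ∧
      ∀ i ∈ T, ∀ t ∈ Set.Icc b (b + l), v i ≤ ψ i t ∧ ψ i t ≤ R * v i := by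
  have hJr : (1 : ℝ) ≤ J := by exact_mod_cast hJ
  induction T using Finset.induction_on with
  | empty =>
    intro a l hl _ _ _ _
    exact ⟨a, fun _ => 0, le_rfl, by simp, by simp, by simp⟩
  | insert i T hi' ih =>
    intro a l hl hd hm hlo hhi
    rw [card_insert_of_notMem hi'] at hd hm hlo hhi ⊢
    obtain ⟨l', hl'⟩ : ∃ l' : ℝ, l' = J ^ T.card * l := ⟨_, rfl⟩
    have hl'0 : 0 < l' := by rw [hl']; positivity
    have e1 : (J : ℝ) ^ (T.card + 1) * l = J * l' := by rw [hl', pow_succ]; ring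
    rw [e1] at hd hm hlo hhi ⊢
    obtain ⟨b, v, hb1, hb2, hv1, hv2, hv3⟩ := Pool.Agent.X29.SM.slow (ψ := ψ i) (ψ' := ψ' i) J hJ hl'0 hR (hμ i)
      (hd i) (hm i) (hlo i) (hhi i) h
    have hsub : ∀ t ∈ Set.Icc b (b + l'), t ∈ Set.Icc a (a + J * l') := fun t ht =>
      ⟨hb1.trans ht.1, ht.2.trans hb2⟩
    subst hl'
    obtain ⟨b', v', hb1', hb2', hv1', hv3'⟩ := ih b l hl (fun j t ht => hd j t (hsub t ht))
      (fun j t ht => hm j t (hsub t ht)) (fun j t ht => hlo j t (hsub t ht))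
      (fun j t ht => hhi j t (hsub t ht))
    refine ⟨b', fun j => if j = i then v else v' j, hb1.trans hb1', by linarith, ?_, ?_⟩
    · intro j hj
      by_cases hji : j = i
      · simp only [if_pos hji]
        exact ⟨hv1, hv2⟩
      · simp only [if_neg hji]
        exact hv1' j ((mem_insert.1 hj).resolve_left hji)
    · intro j hj t ht
      by_cases hji : j = i
      · simp only [if_pos hji]
        rw [hji]
        exact hv3 t ⟨hb1'.trans ht.1, ht.2.trans hb2'⟩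
      · simp only [if_neg hji]
        exact hv3' j ((mem_insert.1 hj).resolve_left hji) t ht

end Pool.Agent.X29.SC
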